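import Mathlib

/-!
Interface for MP_e6cd9b_lc (frozen statement S15548).
-/

set_option autoImplicit false

namespace Pool.Agent.helper51.IPT

/-- Finite sets of naturals; the semigroup operation is union. -/
abbrev FIN := Finset ℕ

/-- `h` is nonempty and lies completely above all the blocks of `σ`. -/
def Far (σ : List FIN) (h : FIN) : Prop :=
  h.Nonempty ∧ ∀ g ∈ σ, ∀ x ∈ g, ∀ y ∈ h, x < y

/-- The first `k` blocks of an infinite sequence. -/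
def pre (H : ℕ → FIN) (k : ℕ) : List FIN := (List.range k).map H

/-- `P lam X r`: the labels of the elements of `X` accumulate at `r` from both sides. -/
def Acc (lam : ℕ → ℝ) (X : Set ℕ) (r : ℝ) : Prop :=
  ∀ ε > 0, ∀ n : ℕ, (∃ v ∈ X, n ≤ v ∧ lam v ∈ Set.Ioo (r - ε) r) ∧
    (∃ v ∈ X, n ≤ v ∧ lam v ∈ Set.Ioo r (r + ε))

/-- Countable data for the centre theorem. -/
structure CData where
  Q : Set (Set FIN)
  Q_count : Q.Countable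
  Q_univ : Set.univ ∈ Q
  Q_inter : ∀ B ∈ Q, ∀ B' ∈ Q, B ∩ B' ∈ Q
  Q_star : ∀ B ∈ Q, ∃ B' ∈ Q, ∀ h ∈ B', {h' | h ∪ h' ∈ B} ∈ Q
  FA : Set (FIN → ℕ)
  FB : Set (FIN → ℕ)
  FA_count : FA.Countable
  FB_count : FB.Countable
  FA_prop : ∀ F ∈ FA, ∃ B ∈ Q, ∀ h ∈ B, {h' | F (h ∪ h') = F h} ∈ Q
  FB_prop : ∀ F ∈ FB, ∃ B ∈ Q, ∀ h ∈ B, (fun h' => F (h ∪ h')) ∈ FB
  lam : ℕ → ℝ
  genA : ∀ B ∈ Q, ∀ K : Finset (FIN → ℕ), (∀ F ∈ K, F ∈ FA) → ∀ a b : ℝ, a < b →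
    ∃ h ∈ B, ∀ F ∈ K, lam (F h) ∈ Set.Ioo a b
  genB : ∀ B ∈ Q, ∀ K : Finset (FIN → ℕ), (∀ F ∈ K, F ∈ FB) → ∀ a b : ℝ, a < b →
    ∃ h ∈ B, ∀ F ∈ K, lam (F h) ∈ Set.Ioo a b

/-- `Good c y i W h`: adding the block `h` to the set `W` of old sums keeps everything coloured
`i` by the colouring `c` and by the type `y` of the centre. -/
def Good {C : Type} (c y : FIN → C) (i : C) (W : Finset FIN) (h : FIN) : Prop :=
  ∀ w ∈ insert ∅ W, c (w ∪ h) = i ∧ y (w ∪ h) = i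

/-- The centre property. -/
def Centre {C : Type} (X : CData) (c y : FIN → C) (i : C) (s t : ℝ) : Prop :=
  s ≠ t ∧ y ∅ = i ∧
    ∀ W : Finset FIN, (∀ w ∈ W, c w = i ∧ y w = i) → ∀ B ∈ X.Q, ∀ ε > 0,
      (∃ h ∈ B, Good c y i W h) ∧
      (∀ F ∈ X.FA, (∃ h ∈ B, Good c y i W h ∧ X.lam (F h) ∈ Set.Ioo (s - ε) s) ∧
        (∃ h ∈ B, Good c y i W h ∧ X.lam (F h) ∈ Set.Ioo s (s + ε))) ∧
      (∀ F ∈ X.FB, (∃ h ∈ B, Good c y i W h ∧ X.lam (F h) ∈ Set.Ioo (t - ε) t) ∧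
        (∃ h ∈ B, Good c y i W h ∧ X.lam (F h) ∈ Set.Ioo t (t + ε)))

/-- Strategy data: `out j σ` = numbers that functional `j` has put out after it has seen the
blocks `σ`; `fix j σ` = numbers that it will put out along every typical continuation. -/
structure SData (ι : Type) extends CData where
  out : ι → List FIN → Set ℕ
  fix : ι → List FIN → Set ℕ
  out_sub : ∀ j σ, out j σ ⊆ fix j σ
  out_mono : ∀ j σ h, Far σ h → out j σ ⊆ out j (σ ++ [h])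
  Q_far : ∀ σ, {h | Far σ h} ∈ Q
  force : ∀ j σ v, v ∈ fix j σ → ∃ T : List FIN → Set FIN, (∀ τ, T τ ∈ Q) ∧
    ∀ H : ℕ → FIN, pre H σ.length = σ → (∀ k, σ.length ≤ k → H k ∈ T (pre H k)) →
      ∃ k, v ∈ out j (pre H k)
  status : ∀ j σ,
    -- (C) labels of `fix j σ` are dense
    (∀ a b : ℝ, a < b → ∀ n : ℕ, ∃ v ∈ fix j σ, n ≤ v ∧ lam v ∈ Set.Ioo a b) ∨
    -- (N) nothing new will come
    ((fix j σ).Finite ∧ ∃ B ∈ Q, ∀ h ∈ B, fix j (σ ++ [h]) ⊆ fix j σ) ∨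
    -- (A) / (B) a pointer
    (∃ F ∈ FA, (∀ n : ℕ, ∃ B ∈ Q, ∀ h ∈ B, n ≤ F h) ∧ ∃ B ∈ Q, ∀ h ∈ B, F h ∈ fix j (σ ++ [h])) ∨
    (∃ F ∈ FB, (∀ n : ℕ, ∃ B ∈ Q, ∀ h ∈ B, n ≤ F h) ∧ ∃ B ∈ Q, ∀ h ∈ B, F h ∈ fix j (σ ++ [h]))

end Pool.Agent.helper51.IPT
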